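import Mathlib

set_option autoImplicit false

/-!
Sums over all orderings of a finite set of letters, and the shuffle sums of a function on words.
-/

namespace Pool.Agent.H394.LieB

open Finset

section perms
variable {α : Type*} [DecidableEq α]

/-- All orderings of a finite set. -/
noncomputable def permsOf (S : Finset α) : Finset (List α) := S.toList.permutations.toFinset

theorem mem_permsOf {S : Finset α} {w : List α} : w ∈ permsOf S ↔ w.Nodup ∧ w.toFinset = S := by
  unfold permsOf
  rw [List.mem_toFinset, List.mem_permutations]
  constructor
  · intro h
    refine ⟨h.nodup_iff.mpr S.nodup_toList, ?_⟩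
    rw [List.toFinset_eq_of_perm _ _ h, Finset.toList_toFinset]
  · rintro ⟨h1, h2⟩
    apply (List.perm_ext_iff_of_nodup h1 S.nodup_toList).mpr
    intro a
    rw [Finset.mem_toList, ← h2, List.mem_toFinset]

theorem permsOf_empty : permsOf (∅ : Finset α) = {[]} := by
  ext w
  rw [mem_permsOf, Finset.mem_singleton]
  constructor
  · rintro ⟨_, h⟩
    exact List.toFinset_eq_empty_iff w |>.mp h
  · rintro rfl
    simp

theorem length_of_mem_permsOf {S : Finset α} {w : List α} (h : w ∈ permsOf S) :
    w.length = S.card := by
  rw [mem_permsOf] at h
  rw [← h.2, List.toFinset_card_of_nodup h.1]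

theorem cons_mem_permsOf {S : Finset α} {x : α} {w : List α} :
    x :: w ∈ permsOf S ↔ x ∈ S ∧ w ∈ permsOf (S.erase x) := by
  rw [mem_permsOf, mem_permsOf, List.nodup_cons, List.toFinset_cons]
  constructor
  · rintro ⟨⟨h1, h2⟩, rfl⟩
    refine ⟨Finset.mem_insert_self _ _, h2, ?_⟩
    rw [Finset.erase_insert]
    rwa [List.mem_toFinset]
  · rintro ⟨h1, h2, h3⟩
    refine ⟨⟨?_, h2⟩, ?_⟩
    · rw [← List.mem_toFinset, h3]
      exact Finset.notMem_erase _ _
    · rw [h3, Finset.insert_erase h1]

theorem perm_mem_permsOf {S : Finset α} {w w' : List α} (h : w.Perm w') :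
    w ∈ permsOf S ↔ w' ∈ permsOf S := by
  rw [mem_permsOf, mem_permsOf, h.nodup_iff, List.toFinset_eq_of_perm _ _ h]

theorem sum_permsOf {M : Type*} [AddCommMonoid M] (S : Finset α) (hS : S.Nonempty)
    (g : List α → M) :
    ∑ w ∈ permsOf S, g w = ∑ x ∈ S, ∑ w ∈ permsOf (S.erase x), g (x :: w) := by
  rw [Finset.sum_sigma']
  symm
  apply Finset.sum_bij (fun (p : Σ _ : α, List α) _ => p.1 :: p.2)
  · rintro ⟨x, w⟩ h
    rw [Finset.mem_sigma] at h
    exact cons_mem_permsOf.mpr h
  · rintro ⟨x, w⟩ _ ⟨x', w'⟩ _ h
    simp only [List.cons.injEq] at h
    obtain ⟨rfl, rfl⟩ := h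
    rfl
  · intro w hw
    cases w with
    | nil =>
      rw [mem_permsOf] at hw
      simp only [List.toFinset_nil] at hw
      rw [← hw.2] at hS
      simp at hS
    | cons x w =>
      rw [cons_mem_permsOf] at hw
      exact ⟨⟨x, w⟩, Finset.mem_sigma.mpr hw, rfl⟩
  · intro _ _
    rfl

theorem reverse_mem_permsOf {S : Finset α} {w : List α} :
    w.reverse ∈ permsOf S ↔ w ∈ permsOf S :=
  perm_mem_permsOf (List.reverse_perm w)

theorem sum_permsOf_reverse {M : Type*} [AddCommMonoid M] (S : Finset α) (g : List α → M) :
    ∑ w ∈ permsOf S, g w.reverse = ∑ w ∈ permsOf S, g w := by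
  apply Finset.sum_nbij' List.reverse List.reverse
  · intro w hw; exact reverse_mem_permsOf.mpr hw
  · intro w hw; exact reverse_mem_permsOf.mpr hw
  · intro w _; exact List.reverse_reverse w
  · intro w _; exact List.reverse_reverse w
  · intro w _; rfl

theorem permsOf_nonempty_toList (S : Finset α) : S.toList ∈ permsOf S := by
  rw [mem_permsOf]
  exact ⟨S.nodup_toList, S.toList_toFinset⟩

end perms

section shuffle
variable {α : Type*} {K : Type*} [AddCommMonoid K]

/-- Sum of `g` over all shuffles of the words `u` and `v`. -/
def shsum (g : List α → K) : List α → List α → K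
  | [], v => g v
  | x :: u, [] => g (x :: u)
  | x :: u, y :: v => shsum (fun w => g (x :: w)) u (y :: v) + shsum (fun w => g (y :: w)) (x :: u) v
termination_by u v => u.length + v.length

@[simp] theorem shsum_nil_left (g : List α → K) (v : List α) : shsum g [] v = g v := by
  rw [shsum]

@[simp] theorem shsum_nil_right (g : List α → K) (u : List α) : shsum g u [] = g u := by
  cases u <;> rw [shsum]

theorem shsum_cons_cons (g : List α → K) (x y : α) (u v : List α) :
    shsum g (x :: u) (y :: v) =
      shsum (fun w => g (x :: w)) u (y :: v) + shsum (fun w => g (y :: w)) (x :: u) v := by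
  rw [shsum]

theorem shsum_congr {g h : List α → K} (u v : List α)
    (H : ∀ w : List α, w.Perm (u ++ v) → g w = h w) : shsum g u v = shsum h u v := by
  induction u generalizing v g h with
  | nil => simp only [shsum_nil_left]; exact H v (List.Perm.refl _)
  | cons x u ihu =>
    induction v generalizing g h with
    | nil => simp only [shsum_nil_right]; exact H _ (by simp)
    | cons y v ihv =>
      rw [shsum_cons_cons, shsum_cons_cons]
      congr 1
      · apply ihu
        intro w hw
        exact H _ (List.Perm.cons x hw)
      · apply ihv
        intro w hw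
        apply H
        exact (List.Perm.cons y hw).trans (List.perm_middle).symm

theorem shsum_comm (g : List α → K) (u v : List α) : shsum g u v = shsum g v u := by
  induction u generalizing v g with
  | nil => simp
  | cons x u ihu =>
    induction v generalizing g with
    | nil => simp
    | cons y v ihv =>
      rw [shsum_cons_cons, shsum_cons_cons, ihu, ihv, add_comm]

/-- Last letter recursion. -/
theorem shsum_snoc_snoc (g : List α → K) (x y : α) (u v : List α) :
    shsum g (u ++ [x]) (v ++ [y]) =
      shsum (fun w => g (w ++ [x])) u (v ++ [y]) + shsum (fun w => g (w ++ [y])) (u ++ [x]) v := by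
  induction u generalizing v g with
  | nil =>
    induction v generalizing g with
    | nil =>
      simp [shsum_cons_cons, add_comm]
    | cons z v ihv =>
      simp only [List.nil_append, List.cons_append, shsum_nil_left] at ihv ⊢
      rw [shsum_cons_cons, ihv, shsum_cons_cons]
      simp only [shsum_nil_left, List.cons_append]
      rw [← add_assoc, ← add_assoc]
      congr 1
      rw [add_comm]
  | cons z u ihu =>
    induction v generalizing g with
    | nil =>
      simp only [List.cons_append, List.nil_append, shsum_nil_right] at ihu ⊢
      rw [shsum_cons_cons]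
      have := ihu (fun w => g (z :: w)) []
      simp only [List.nil_append, shsum_nil_right] at this
      rw [this, shsum_cons_cons]
      simp only [shsum_nil_right, List.cons_append]
      abel
    | cons t v ihv =>
      simp only [List.cons_append] at ihu ihv ⊢
      rw [shsum_cons_cons, shsum_cons_cons, shsum_cons_cons]
      have h1 := ihu (fun w => g (z :: w)) (t :: v)
      have h2 := ihv (fun w => g (t :: w))
      simp only [List.cons_append] at h1 h2
      rw [h1, h2]
      simp only [List.cons_append]
      abel

theorem shsum_reverse (g : List α → K) (u v : List α) :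
    shsum (fun w => g w.reverse) u v = shsum g u.reverse v.reverse := by
  induction u generalizing v g with
  | nil => simp
  | cons x u ihu =>
    induction v generalizing g with
    | nil => simp
    | cons y v ihv =>
      rw [shsum_cons_cons, List.reverse_cons, List.reverse_cons, shsum_snoc_snoc]
      have h1 := ihu (fun w => g (w ++ [x])) (y :: v)
      have h2 := ihv (fun w => g (w ++ [y]))
      simp only [List.reverse_cons] at h1 h2 ⊢
      rw [h1, h2]

theorem shsum_add (g h : List α → K) (u v : List α) :
    shsum (fun w => g w + h w) u v = shsum g u v + shsum h u v := by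
  induction u generalizing v g h with
  | nil => simp
  | cons x u ihu =>
    induction v generalizing g h with
    | nil => simp
    | cons y v ihv =>
      rw [shsum_cons_cons, shsum_cons_cons, shsum_cons_cons, ihu, ihv]
      abel

/-- Associativity of shuffles. -/
theorem shsum_assoc (g : List α → K) (u v w : List α) :
    shsum (fun A => shsum g A w) u v = shsum (fun B => shsum g u B) v w := by
  induction u generalizing v w g with
  | nil => simp
  | cons x u ihu =>
    induction v generalizing w g with
    | nil => simp
    | cons y v ihv =>
      induction w generalizing g with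
      | nil => simp
      | cons z w ihw =>
        have L : shsum (fun A => shsum g A (z :: w)) (x :: u) (y :: v) =
            shsum (fun A => shsum (fun w => g (x :: w)) A (z :: w)) u (y :: v) +
            shsum (fun A => shsum (fun w => g (y :: w)) A (z :: w)) (x :: u) v +
            shsum (fun A => shsum (fun w => g (z :: w)) A w) (x :: u) (y :: v) := by
          rw [shsum_cons_cons]
          simp only [shsum_cons_cons g, shsum_add]
          rw [shsum_cons_cons (fun A => shsum (fun w => g (z :: w)) A w)]
          abel
        have R : shsum (fun B => shsum g (x :: u) B) (y :: v) (z :: w) =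
            shsum (fun B => shsum (fun w => g (x :: w)) u B) (y :: v) (z :: w) +
            shsum (fun B => shsum (fun w => g (y :: w)) (x :: u) B) v (z :: w) +
            shsum (fun B => shsum (fun w => g (z :: w)) (x :: u) B) (y :: v) w := by
          rw [shsum_cons_cons]
          simp only [shsum_cons_cons g, shsum_add]
          rw [shsum_cons_cons (fun B => shsum (fun w => g (x :: w)) u B)]
          abel
        rw [L, R, ihu, ihv, ihw]

end shuffle

section shuffleK
variable {α : Type*} {K : Type*} [CommRing K]

theorem shsum_mul (c : K) (g : List α → K) (u v : List α) :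
    shsum (fun w => c * g w) u v = c * shsum g u v := by
  induction u generalizing v g with
  | nil => simp
  | cons x u ihu =>
    induction v generalizing g with
    | nil => simp
    | cons y v ihv =>
      rw [shsum_cons_cons, shsum_cons_cons, ihu, ihv]
      ring

end shuffleK

end Pool.Agent.H394.LieB
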