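import Mathlib
import Pool.Agent.H394.LiePerms
import Pool.Graph.R_seed8.Helper884.LieId.Defs

set_option autoImplicit false

/-!
Interface of the project `K_n(2n+2) = 0` (MP_a9fd20_al): definitions and statements of the pieces.
-/

namespace Pool.Agent.H394.LieB

open Finset Pool.Agent.Helper884.LieId

attribute [local instance 100] LieRing.ofAssociativeRing

/-- Left normed bracket with the last letter innermost:
`lnr x A [i₁, ..., iₖ] = ⁅...⁅⁅A, x iₖ⁆, x iₖ₋₁⁆..., x i₁⁆`. -/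
def lnr {L : Type*} [LieRing L] (x : ℕ → L) (A : L) : List ℕ → L
  | [] => A
  | i :: w => ⁅lnr x A w, x i⁆

/-- The multilinear Lie polynomials in the letters of `S` (each letter exactly once). -/
noncomputable def ML (K : Type) [Field K] (S : Finset ℕ) : Submodule K (FreeLieAlgebra K ℕ) :=
  Submodule.span K {z | ∃ (i : ℕ) (w : List ℕ), i :: w ∈ permsOf S ∧
    z = lnr (FreeLieAlgebra.of K) (FreeLieAlgebra.of K i) w}

/-- POL: an identity of degree at most `d` gives a multilinear identity of degree at most `d`. -/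
def S_POL : Prop :=
  ∀ (K : Type) [Field K] [CharZero K] (L : Type) [LieRing L] [LieAlgebra K L] (d : ℕ),
    (∀ e : ℕ, 1 ≤ e → e ≤ d → ∀ f ∈ ML K (Finset.range e),
      (∀ a : ℕ → L, FreeLieAlgebra.lift K a f = 0) → f = 0) →
    ∀ f ∈ DegLE K d, (∀ a : ℕ → L, FreeLieAlgebra.lift K a f = 0) → f = 0

/-- `p` is a multilinear associative identity of the `k × k` matrices in the letters of `S`. -/
def IsId (K : Type) [Field K] (k : ℕ) (S : Finset ℕ) (p : List ℕ → K) : Prop :=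
  ∀ x : ℕ → Matrix (Fin k) (Fin k) K, ∑ w ∈ permsOf S, p w • (w.map x).prod = 0

/-- CON: contraction at the right end. -/
def S_CON : Prop :=
  ∀ (K : Type) [Field K] (k : ℕ) (S T : Finset ℕ) (z : ℕ) (p : List ℕ → K),
    z ∈ S → T ⊆ S → z ∉ T → IsId K (k + 1) S p →
    IsId K k ((S.erase z) \ T) (fun w => ∑ t ∈ permsOf T, p (w ++ z :: t))

/-- BF1: no associative identity of degree `< 2k` for the `k × k` matrices. -/
def S_BF1 : Prop :=
  ∀ (K : Type) [Field K] (k : ℕ) (S : Finset ℕ) (p : List ℕ → K),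
    S.card < 2 * k → IsId K k S p → ∀ w ∈ permsOf S, p w = 0

/-- BF2: associative identities of degree `2k` of the `k × k` matrices are alternating. -/
def S_BF2 : Prop :=
  ∀ (K : Type) [Field K] (k : ℕ) (S : Finset ℕ) (p : List ℕ → K),
    S.card = 2 * k → IsId K k S p → ∀ (l₁ l₂ : List ℕ) (x y : ℕ),
      l₁ ++ x :: y :: l₂ ∈ permsOf S → p (l₁ ++ x :: y :: l₂) + p (l₁ ++ y :: x :: l₂) = 0

/-- Alternating functions on words. -/
def Altern {K : Type} [Field K] (h : List ℕ → K) : Prop :=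
  ∀ (l₁ l₂ : List ℕ) (x y : ℕ), h (l₁ ++ x :: y :: l₂) + h (l₁ ++ y :: x :: l₂) = 0

/-- Signed numbers of shuffles. -/
def cnt : ℕ → ℕ → ℤ
  | 0, _ => 1
  | _ + 1, 0 => 1
  | i + 1, j + 1 => cnt i (j + 1) + (-1) ^ (i + 1) * cnt (i + 1) j
termination_by i j => i + j

/-- CNT: the shuffle sums of an alternating function. -/
def S_CNT : Prop :=
  (∀ (K : Type) [Field K] (h : List ℕ → K), Altern h → ∀ u v : List ℕ,
    shsum h u v = (cnt u.length v.length : K) * h (u ++ v)) ∧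
  (∀ m : ℕ, cnt 2 (2 * m) = m + 1) ∧
  (∀ m : ℕ, 2 * cnt 4 (2 * m) = (m + 1) * (m + 2))

/-- The function `h^{ab}_{uv}`. -/
def hh {K : Type} [Field K] (c : List ℕ → K) (a b u v : ℕ) (w : List ℕ) : K :=
  c (u :: (w ++ [v, a, b])) + c (u :: (w ++ [v, b, a]))

/-- CORE. -/
def S_CORE : Prop :=
  ∀ (K : Type) [Field K] [CharZero K] (m : ℕ) (c : List ℕ → K),
    (∀ w : List ℕ, w.length ≠ 2 * m + 8 → c w = 0) →
    (∀ w : List ℕ, ¬ w.Nodup → c w = 0) →
    (∀ A B : List ℕ, c (A ++ B) = c (B ++ A)) →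
    (∀ (u v : ℕ) (A B : List ℕ), c (u :: (A ++ v :: B)) =
      (-1) ^ B.length * shsum (fun w => c (u :: (w ++ [v]))) A B.reverse) →
    (∀ a b u v : ℕ, Altern (hh c a b u v)) →
    ∀ w : List ℕ, c w = 0

end Pool.Agent.H394.LieB
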