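import Mathlib
import Pool.Agent.H394.LieStm

set_option autoImplicit false

/-!
Multilinear Lie polynomials: change of the base letter, associative expansion.
-/

namespace Pool.Agent.H394.LieB

open Finset Pool.Agent.Helper884.LieId

attribute [local instance 100] LieRing.ofAssociativeRing

section lnr
variable {L : Type*} [LieRing L]

@[simp] theorem lnr_nil (x : ℕ → L) (A : L) : lnr x A [] = A := rfl
@[simp] theorem lnr_cons (x : ℕ → L) (A : L) (i : ℕ) (w : List ℕ) :
    lnr x A (i :: w) = ⁅lnr x A w, x i⁆ := rfl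

theorem lnr_append (x : ℕ → L) (A : L) (w₁ w₂ : List ℕ) :
    lnr x A (w₁ ++ w₂) = lnr x (lnr x A w₂) w₁ := by
  induction w₁ with
  | nil => rfl
  | cons i w ih => simp [ih]

theorem lnr_add (x : ℕ → L) (A B : L) (w : List ℕ) :
    lnr x (A + B) w = lnr x A w + lnr x B w := by
  induction w with
  | nil => rfl
  | cons i w ih => simp [ih]

theorem lnr_neg (x : ℕ → L) (A : L) (w : List ℕ) :
    lnr x (-A) w = - lnr x A w := by
  induction w with
  | nil => rfl
  | cons i w ih => simp [ih]

theorem lnr_zero (x : ℕ → L) (w : List ℕ) :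
    lnr x 0 w = 0 := by
  induction w with
  | nil => rfl
  | cons i w ih => simp [ih]

theorem lnr_congr (x y : ℕ → L) (A : L) (w : List ℕ) (h : ∀ i ∈ w, x i = y i) :
    lnr x A w = lnr y A w := by
  induction w with
  | nil => rfl
  | cons i w ih =>
    rw [lnr_cons, lnr_cons, ih (fun j hj => h j (List.mem_cons_of_mem _ hj)),
      h i List.mem_cons_self]

variable {K : Type*} [CommRing K] [LieAlgebra K L]

theorem lnr_smul (x : ℕ → L) (c : K) (A : L) (w : List ℕ) :
    lnr x (c • A) w = c • lnr x A w := by
  induction w with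
  | nil => rfl
  | cons i w ih => simp [ih]

theorem lnr_mem_span (x : ℕ → L) (w : List ℕ) (s : Set L) (T : Submodule K L)
    (h : ∀ A ∈ s, lnr x A w ∈ T) (A : L) (hA : A ∈ Submodule.span K s) : lnr x A w ∈ T := by
  induction hA using Submodule.span_induction with
  | mem A hA => exact h A hA
  | zero => rw [lnr_zero]; exact T.zero_mem
  | add A B _ _ h1 h2 => rw [lnr_add]; exact T.add_mem h1 h2
  | smul c A _ h1 => rw [lnr_smul]; exact T.smul_mem c h1

theorem map_lnr {L' : Type*} [LieRing L'] [LieAlgebra K L'] (φ : L →ₗ⁅K⁆ L') (x : ℕ → L) (A : L)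
    (w : List ℕ) : φ (lnr x A w) = lnr (fun i => φ (x i)) (φ A) w := by
  induction w with
  | nil => rfl
  | cons i w ih => simp [ih]

/-- `⁅A, lnr x B w⁆` is a combination of the `lnr x A w'`. -/
theorem ad_expand (x : ℕ → L) (A : L) (i : ℕ) (w : List ℕ) :
    ⁅A, lnr x (x i) w⁆ ∈ Submodule.span K {z | ∃ w' : List ℕ, w'.Perm (i :: w) ∧ z = lnr x A w'} := by
  induction w generalizing A with
  | nil =>
    apply Submodule.subset_span
    exact ⟨[i], List.Perm.refl _, rfl⟩
  | cons j w ih =>
    rw [lnr_cons]
    have e : ⁅A, ⁅lnr x (x i) w, x j⁆⁆ = ⁅⁅A, lnr x (x i) w⁆, x j⁆ - ⁅⁅A, x j⁆, lnr x (x i) w⁆ := by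
      rw [leibniz_lie A, ← lie_skew (lnr x (x i) w) ⁅A, x j⁆]
      abel
    rw [e]
    apply Submodule.sub_mem
    · have h1 := ih A
      have h2 := lnr_mem_span x [j] _
        (Submodule.span K {z | ∃ w' : List ℕ, w'.Perm (i :: j :: w) ∧ z = lnr x A w'}) ?_ _ h1
      · exact h2
      · rintro _ ⟨w', hw', rfl⟩
        apply Submodule.subset_span
        refine ⟨j :: w', ?_, rfl⟩
        exact (List.Perm.cons j hw').trans (List.Perm.swap _ _ _)
    · have h1 := ih ⁅A, x j⁆
      refine Submodule.span_mono ?_ h1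
      rintro _ ⟨w', hw', rfl⟩
      refine ⟨w' ++ [j], ?_, ?_⟩
      · exact ((List.perm_append_singleton j w').trans (List.Perm.cons j hw')).trans
          (List.Perm.swap _ _ _)
      · rw [lnr_append]; rfl

/-- Change of the base letter. -/
theorem base_change (x : ℕ → L) (i u : ℕ) (w : List ℕ) (hu : u ∈ i :: w) :
    lnr x (x i) w ∈ Submodule.span K
      {z | ∃ w' : List ℕ, (u :: w').Perm (i :: w) ∧ z = lnr x (x u) w'} := by
  by_cases hiu : u = i
  · subst hiu
    exact Submodule.subset_span ⟨w, List.Perm.refl _, rfl⟩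
  · have hu' : u ∈ w := by
      rcases List.mem_cons.mp hu with h | h
      · exact absurd h hiu
      · exact h
    obtain ⟨w₁, w₂, rfl⟩ := List.append_of_mem hu'
    rw [lnr_append, lnr_cons, ← lie_skew, lnr_neg]
    apply Submodule.neg_mem
    refine lnr_mem_span x w₁ _ _ ?_ _ (ad_expand (K := K) x (x u) i w₂)
    rintro _ ⟨w', hw', rfl⟩
    rw [← lnr_append]
    apply Submodule.subset_span
    refine ⟨w₁ ++ w', ?_, rfl⟩
    have h1 : (w₁ ++ w').Perm (w₁ ++ i :: w₂) := List.Perm.append_left _ hw'
    have h2 : (w₁ ++ i :: w₂).Perm (i :: (w₁ ++ w₂)) := List.perm_middle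
    have h3 : (w₁ ++ u :: w₂).Perm (u :: (w₁ ++ w₂)) := List.perm_middle
    calc (u :: (w₁ ++ w')).Perm (u :: i :: (w₁ ++ w₂)) := List.Perm.cons u (h1.trans h2)
      List.Perm _ (i :: u :: (w₁ ++ w₂)) := List.Perm.swap _ _ _
      List.Perm _ _ := List.Perm.cons i h3.symm

end lnr

section ML
variable {K : Type} [Field K]

/-- Every multilinear Lie polynomial is a combination of the brackets with base letter `u`. -/
theorem ML_le_base (S : Finset ℕ) (u : ℕ) (hu : u ∈ S) :
    ML K S ≤ Submodule.span K
      ((fun w => lnr (FreeLieAlgebra.of K) (FreeLieAlgebra.of K u) w) ''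
        (permsOf (S.erase u) : Set (List ℕ))) := by
  unfold ML
  rw [Submodule.span_le]
  rintro _ ⟨i, w, hw, rfl⟩
  have hu' : u ∈ i :: w := by
    rw [mem_permsOf] at hw
    rw [← List.mem_toFinset, hw.2]
    exact hu
  refine Submodule.span_mono ?_ (base_change (K := K) (FreeLieAlgebra.of K) i u w hu')
  rintro _ ⟨w', hw', rfl⟩
  refine ⟨w', ?_, rfl⟩
  rw [Finset.mem_coe]
  exact (cons_mem_permsOf.mp ((perm_mem_permsOf hw').mpr hw)).2

theorem exists_base (S : Finset ℕ) (u : ℕ) (hu : u ∈ S) (f : FreeLieAlgebra K ℕ)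
    (hf : f ∈ ML K S) : ∃ Q : List ℕ → K,
      f = ∑ w ∈ permsOf (S.erase u),
        Q w • lnr (FreeLieAlgebra.of K) (FreeLieAlgebra.of K u) w := by
  have h := ML_le_base S u hu hf
  rw [Submodule.mem_span_image_finset_iff_exists_fun] at h
  obtain ⟨Q, hQ⟩ := h
  refine ⟨fun w => if h : w ∈ permsOf (S.erase u) then Q ⟨w, h⟩ else 0, ?_⟩
  rw [← hQ, ← Finset.sum_attach (permsOf (S.erase u))]
  apply Finset.sum_congr rfl
  intro w _
  dsimp only
  rw [dif_pos w.2]

theorem base_mem_ML (S : Finset ℕ) (u : ℕ) (hu : u ∈ S) (Q : List ℕ → K) :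
    ∑ w ∈ permsOf (S.erase u),
        Q w • lnr (FreeLieAlgebra.of K) (FreeLieAlgebra.of K u) w ∈ ML K S := by
  apply Submodule.sum_mem
  intro w hw
  apply Submodule.smul_mem
  apply Submodule.subset_span
  exact ⟨u, w, cons_mem_permsOf.mpr ⟨hu, hw⟩, rfl⟩

end ML

section expand
variable {K : Type*} [CommRing K]

/-- The associative coefficients of `∑ Q w • lnr x (x u) w`. -/
def ex (Q : List ℕ → K) (u : ℕ) (w : List ℕ) : K :=
  (-1) ^ (w.takeWhile (· ≠ u)).length *
    shsum Q ((w.dropWhile (· ≠ u)).tail).reverse (w.takeWhile (· ≠ u))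

theorem ex_split (Q : List ℕ → K) (u : ℕ) (b a : List ℕ) (hb : u ∉ b) :
    ex Q u (b ++ u :: a) = (-1) ^ b.length * shsum Q a.reverse b := by
  unfold ex
  have h1 : (b ++ u :: a).takeWhile (· ≠ u) = b := by
    rw [List.takeWhile_append_of_pos]
    · simp
    · intro c hc
      simp only [ne_eq, decide_not, Bool.not_eq_eq_eq_not, Bool.not_true, decide_eq_false_iff_not]
      rintro rfl
      exact hb hc
  have h2 : (b ++ u :: a).dropWhile (· ≠ u) = u :: a := by
    rw [List.dropWhile_append_of_pos]
    · simp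
    · intro c hc
      simp only [ne_eq, decide_not, Bool.not_eq_eq_eq_not, Bool.not_true, decide_eq_false_iff_not]
      rintro rfl
      exact hb hc
  rw [h1, h2, List.tail_cons]

/-- The part of `ex` coming from the last letter. -/
def exL (Q : List ℕ → K) (u : ℕ) (w : List ℕ) : K :=
  match w.reverse with
  | [] => 0
  | j :: r => if j = u then 0 else ex (fun v => Q (j :: v)) u r.reverse

/-- The part of `ex` coming from the first letter. -/
def exF (Q : List ℕ → K) (u : ℕ) (w : List ℕ) : K :=
  match w with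
  | [] => 0
  | i :: r => if i = u then 0 else ex (fun v => Q (i :: v)) u r

theorem ex_eq_sub (Q : List ℕ → K) (u : ℕ) (w : List ℕ) (hw : w.Nodup) (hu : u ∈ w)
    (hl : 2 ≤ w.length) : ex Q u w = exL Q u w - exF Q u w := by
  obtain ⟨b, a, rfl⟩ := List.append_of_mem hu
  obtain ⟨A, rfl⟩ : ∃ A : List ℕ, a = A.reverse := ⟨a.reverse, by simp⟩
  rw [List.nodup_append] at hw
  obtain ⟨h1, h2, h3⟩ := hw
  have hb : u ∉ b := fun h => h3 u h u List.mem_cons_self rfl
  have hA : u ∉ A := by
    have := (List.nodup_cons.mp h2).1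
    rwa [List.mem_reverse] at this
  rw [ex_split Q u b _ hb, List.reverse_reverse]
  have hL : exL Q u (b ++ u :: A.reverse) = match A with
      | [] => 0
      | j :: r => (-1) ^ b.length * shsum (fun v => Q (j :: v)) r b := by
    unfold exL
    rw [List.reverse_append, List.reverse_cons, List.reverse_reverse]
    cases A with
    | nil => simp
    | cons j r =>
      simp only [List.cons_append]
      have hj : j ≠ u := by
        rintro rfl
        exact hA List.mem_cons_self
      rw [if_neg hj]
      have e : (r ++ [u] ++ b.reverse).reverse = b ++ u :: r.reverse := by simp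
      rw [e, ex_split _ u b _ hb, List.reverse_reverse]
  have hF : exF Q u (b ++ u :: A.reverse) = match b with
      | [] => 0
      | i :: b' => (-1) ^ b'.length * shsum (fun v => Q (i :: v)) A b' := by
    unfold exF
    cases b with
    | nil => simp
    | cons i b' =>
      simp only [List.cons_append]
      have hi : i ≠ u := by
        rintro rfl
        exact hb List.mem_cons_self
      rw [if_neg hi, ex_split _ u b' _ (fun h => hb (List.mem_cons_of_mem _ h)),
        List.reverse_reverse]
  rw [hL, hF]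
  cases A with
  | nil =>
    cases b with
    | nil => simp at hl
    | cons i b' => simp [pow_succ]
  | cons j r =>
    cases b with
    | nil => simp
    | cons i b' =>
      simp only [List.length_cons, shsum_cons_cons, pow_succ]
      ring

variable {R : Type*} [Ring R] [Algebra K R]

theorem sum_exL (Q : List ℕ → K) (u : ℕ) (S : Finset ℕ) (hu : u ∉ S) (x : ℕ → R) :
    ∑ w ∈ permsOf (insert u S), exL Q u w • (w.map x).prod =
      ∑ j ∈ S, ∑ w ∈ permsOf (insert u (S.erase j)),
        ex (fun v => Q (j :: v)) u w • ((w.map x).prod * x j) := by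
  rw [← sum_permsOf_reverse, sum_permsOf _ ⟨u, Finset.mem_insert_self u S⟩,
    Finset.sum_insert hu]
  have h0 : ∑ w ∈ permsOf ((insert u S).erase u),
      exL Q u (u :: w).reverse • ((u :: w).reverse.map x).prod = 0 := by
    apply Finset.sum_eq_zero
    intro w _
    unfold exL
    rw [List.reverse_reverse]
    simp
  rw [h0, zero_add]
  apply Finset.sum_congr rfl
  intro j hj
  have hju : j ≠ u := by
    rintro rfl
    exact hu hj
  rw [Finset.erase_insert_of_ne (Ne.symm hju),
    ← sum_permsOf_reverse (insert u (S.erase j))]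
  apply Finset.sum_congr rfl
  intro w _
  unfold exL
  rw [List.reverse_reverse]
  simp only [if_neg hju]
  rw [List.reverse_reverse, List.reverse_cons, List.reverse_reverse, List.map_append,
    List.prod_append, List.map_singleton, List.prod_singleton]

theorem sum_exF (Q : List ℕ → K) (u : ℕ) (S : Finset ℕ) (hu : u ∉ S) (x : ℕ → R) :
    ∑ w ∈ permsOf (insert u S), exF Q u w • (w.map x).prod =
      ∑ j ∈ S, ∑ w ∈ permsOf (insert u (S.erase j)),
        ex (fun v => Q (j :: v)) u w • (x j * (w.map x).prod) := by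
  rw [sum_permsOf _ ⟨u, Finset.mem_insert_self u S⟩, Finset.sum_insert hu]
  have h0 : ∑ w ∈ permsOf ((insert u S).erase u),
      exF Q u (u :: w) • ((u :: w).map x).prod = 0 := by
    apply Finset.sum_eq_zero
    intro w _
    unfold exF
    simp
  rw [h0, zero_add]
  apply Finset.sum_congr rfl
  intro j hj
  have hju : j ≠ u := by
    rintro rfl
    exact hu hj
  rw [Finset.erase_insert_of_ne (Ne.symm hju)]
  apply Finset.sum_congr rfl
  intro w _
  unfold exF
  simp only [if_neg hju]
  rw [List.map_cons, List.prod_cons]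

/-- Associative expansion of the left normed brackets. -/
theorem expand (Q : List ℕ → K) (u : ℕ) (S : Finset ℕ) (hu : u ∉ S) (x : ℕ → R) :
    ∑ w ∈ permsOf S, Q w • lnr x (x u) w =
      ∑ w ∈ permsOf (insert u S), ex Q u w • (w.map x).prod := by
  induction hn : S.card generalizing S Q with
  | zero =>
    rw [Finset.card_eq_zero] at hn
    subst hn
    rw [permsOf_empty, Finset.sum_singleton, sum_permsOf _ ⟨u, Finset.mem_insert_self u _⟩,
      Finset.sum_insert hu, Finset.sum_empty, add_zero, Finset.erase_insert hu, permsOf_empty,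
      Finset.sum_singleton]
    have := ex_split Q u [] [] (by simp)
    simp only [List.nil_append] at this
    rw [this]
    simp
  | succ n ih =>
    have hS : S.Nonempty := by
      rw [← Finset.card_pos, hn]
      exact Nat.succ_pos n
    rw [sum_permsOf S hS]
    have key : ∀ j ∈ S, ∑ w ∈ permsOf (S.erase j), Q (j :: w) • lnr x (x u) (j :: w) =
        (∑ w ∈ permsOf (insert u (S.erase j)),
          ex (fun v => Q (j :: v)) u w • ((w.map x).prod * x j)) -
        ∑ w ∈ permsOf (insert u (S.erase j)),
          ex (fun v => Q (j :: v)) u w • (x j * (w.map x).prod) := by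
      intro j hj
      have h1 := ih (fun v => Q (j :: v)) (S.erase j) (fun h => hu (Finset.mem_of_mem_erase h))
        (by rw [Finset.card_erase_of_mem hj, hn]; rfl)
      have h2 : ∑ w ∈ permsOf (S.erase j), Q (j :: w) • lnr x (x u) (j :: w) =
          (∑ w ∈ permsOf (S.erase j), Q (j :: w) • lnr x (x u) w) * x j -
          x j * ∑ w ∈ permsOf (S.erase j), Q (j :: w) • lnr x (x u) w := by
        rw [Finset.sum_mul, Finset.mul_sum, ← Finset.sum_sub_distrib]
        apply Finset.sum_congr rfl
        intro w _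
        rw [lnr_cons, LieRing.of_associative_ring_bracket, smul_sub, smul_mul_assoc,
          mul_smul_comm]
      rw [h2, h1, Finset.sum_mul, Finset.mul_sum]
      congr 1
      · apply Finset.sum_congr rfl
        intro w _
        rw [smul_mul_assoc]
      · apply Finset.sum_congr rfl
        intro w _
        rw [mul_smul_comm]
    rw [Finset.sum_congr rfl key, Finset.sum_sub_distrib, ← sum_exL Q u S hu x,
      ← sum_exF Q u S hu x, ← Finset.sum_sub_distrib]
    apply Finset.sum_congr rfl
    intro w hw
    rw [← sub_smul]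
    have hw' := length_of_mem_permsOf hw
    rw [mem_permsOf] at hw
    rw [ex_eq_sub Q u w hw.1]
    · rw [← List.mem_toFinset, hw.2]
      exact Finset.mem_insert_self _ _
    · rw [hw', Finset.card_insert_of_notMem hu, hn]
      omega

end expand

end Pool.Agent.H394.LieB
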