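import Mathlib
import Pool.Agent.H394.LieFree

set_option autoImplicit false

/-!
Coefficients of multilinear Lie polynomials.
-/

namespace Pool.Agent.H394.LieB

open Finset Pool.Agent.Helper884.LieId

attribute [local instance 100] LieRing.ofAssociativeRing

variable {K : Type} [Field K]

/-- The generic letter in the free associative algebra. -/
noncomputable def gen (K : Type) [Field K] (i : ℕ) : MonoidAlgebra K (FreeMonoid ℕ) :=
  MonoidAlgebra.of K (FreeMonoid ℕ) (FreeMonoid.of i)

theorem prod_gen (w : List ℕ) :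
    (w.map (gen K)).prod = MonoidAlgebra.single (FreeMonoid.ofList w) 1 := by
  induction w with
  | nil => rfl
  | cons i w ih =>
    rw [List.map_cons, List.prod_cons, ih, gen, MonoidAlgebra.of_apply,
      MonoidAlgebra.single_mul_single, mul_one]
    rfl

/-- Coefficient of a word in the associative expansion of a Lie polynomial. -/
noncomputable def cf (f : FreeLieAlgebra K ℕ) (w : List ℕ) : K :=
  (FreeLieAlgebra.lift K (gen K) f).coeff (FreeMonoid.ofList w)

theorem coeff_sum_gen (s : Finset (List ℕ)) (F : List ℕ → K) (v : List ℕ) :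
    (∑ w ∈ s, F w • (w.map (gen K)).prod).coeff (FreeMonoid.ofList v) =
      if v ∈ s then F v else 0 := by
  simp only [prod_gen]
  simp only [MonoidAlgebra.coeff_sum, MonoidAlgebra.coeff_smul, MonoidAlgebra.coeff_single,
    Finsupp.coe_finsetSum, Finset.sum_apply, Finsupp.smul_single, smul_eq_mul, mul_one]
  have h : ∀ c : List ℕ, (Finsupp.single (FreeMonoid.ofList c) (F c)) (FreeMonoid.ofList v) =
      if v = c then F c else 0 := by
    intro c
    by_cases h : v = c
    · subst h
      rw [if_pos rfl, Finsupp.single_eq_same]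
    · rw [if_neg h, Finsupp.single_eq_of_ne]
      intro h'
      exact h (FreeMonoid.ofList.injective h')
  simp only [h]
  rw [Finset.sum_ite_eq]

theorem lift_lnr {L : Type} [LieRing L] [LieAlgebra K L] (x : ℕ → L) (u : ℕ) (w : List ℕ) :
    FreeLieAlgebra.lift K x (lnr (FreeLieAlgebra.of K) (FreeLieAlgebra.of K u) w) =
      lnr x (x u) w := by
  rw [map_lnr]
  simp only [FreeLieAlgebra.lift_of_apply]

theorem lift_sum {L : Type} [LieRing L] [LieAlgebra K L] (x : ℕ → L) (u : ℕ)
    (s : Finset (List ℕ)) (Q : List ℕ → K) :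
    FreeLieAlgebra.lift K x (∑ w ∈ s, Q w • lnr (FreeLieAlgebra.of K) (FreeLieAlgebra.of K u) w) =
      ∑ w ∈ s, Q w • lnr x (x u) w := by
  rw [map_sum]
  apply Finset.sum_congr rfl
  intro w _
  rw [map_smul, lift_lnr]

theorem cf_base (S : Finset ℕ) (u : ℕ) (hu : u ∈ S) (Q : List ℕ → K) (w : List ℕ) :
    cf (∑ w ∈ permsOf (S.erase u),
      Q w • lnr (FreeLieAlgebra.of K) (FreeLieAlgebra.of K u) w) w =
      if w ∈ permsOf S then ex Q u w else 0 := by
  unfold cf
  rw [lift_sum, expand Q u (S.erase u) (Finset.notMem_erase u S) (gen K), coeff_sum_gen,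
    Finset.insert_erase hu]

theorem cf_base_cons (S : Finset ℕ) (u : ℕ) (hu : u ∈ S) (Q : List ℕ → K) (w : List ℕ)
    (hw : w ∈ permsOf (S.erase u)) :
    cf (∑ w ∈ permsOf (S.erase u),
      Q w • lnr (FreeLieAlgebra.of K) (FreeLieAlgebra.of K u) w) (u :: w.reverse) = Q w := by
  rw [cf_base S u hu, if_pos (cons_mem_permsOf.mpr ⟨hu, reverse_mem_permsOf.mpr hw⟩)]
  have := ex_split Q u [] w.reverse (by simp)
  rw [List.nil_append] at this
  rw [this]
  simp

theorem eq_base (S : Finset ℕ) (u : ℕ) (hu : u ∈ S) (f : FreeLieAlgebra K ℕ) (hf : f ∈ ML K S) :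
    f = ∑ w ∈ permsOf (S.erase u),
      cf f (u :: w.reverse) • lnr (FreeLieAlgebra.of K) (FreeLieAlgebra.of K u) w := by
  obtain ⟨Q, hQ⟩ := exists_base S u hu f hf
  conv_lhs => rw [hQ]
  apply Finset.sum_congr rfl
  intro w hw
  rw [hQ, cf_base_cons S u hu Q w hw]

theorem cf_eq_zero (S : Finset ℕ) (hS : S.Nonempty) (f : FreeLieAlgebra K ℕ) (hf : f ∈ ML K S)
    (w : List ℕ) (hw : w ∉ permsOf S) : cf f w = 0 := by
  obtain ⟨u, hu⟩ := hS
  obtain ⟨Q, hQ⟩ := exists_base S u hu f hf
  rw [hQ, cf_base S u hu, if_neg hw]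

theorem cf_split (S : Finset ℕ) (f : FreeLieAlgebra K ℕ) (hf : f ∈ ML K S) (u : ℕ)
    (b a : List ℕ) (h : b ++ u :: a ∈ permsOf S) :
    cf f (b ++ u :: a) = (-1) ^ b.length *
      shsum (fun w => cf f (u :: w.reverse)) a.reverse b := by
  have hu : u ∈ S := by
    rw [mem_permsOf] at h
    rw [← h.2]
    simp
  obtain ⟨Q, hQ⟩ := exists_base S u hu f hf
  have hb : u ∉ b := by
    rw [mem_permsOf, List.nodup_append] at h
    exact fun h' => h.1.2.2 u h' u List.mem_cons_self rfl
  conv_lhs => rw [hQ]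
  rw [cf_base S u hu, if_pos h, ex_split Q u b a hb]
  congr 1
  apply shsum_congr
  intro w hw
  rw [hQ, cf_base_cons S u hu Q w]
  have h1 : (b ++ u :: a).Perm (u :: w) := by
    refine List.perm_middle.trans (List.Perm.cons u ?_)
    refine List.Perm.trans ?_ hw.symm
    exact List.perm_append_comm.trans (List.Perm.append_right _ (List.reverse_perm a).symm)
  exact (cons_mem_permsOf.mp ((perm_mem_permsOf h1).mp h)).2

theorem lift_eq_sum (S : Finset ℕ) (hS : S.Nonempty) (f : FreeLieAlgebra K ℕ) (hf : f ∈ ML K S)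
    {R : Type} [Ring R] [Algebra K R] (x : ℕ → R) :
    FreeLieAlgebra.lift K x f = ∑ w ∈ permsOf S, cf f w • (w.map x).prod := by
  obtain ⟨u, hu⟩ := hS
  obtain ⟨Q, hQ⟩ := exists_base S u hu f hf
  conv_lhs => rw [hQ]
  rw [lift_sum, expand Q u (S.erase u) (Finset.notMem_erase u S) x, Finset.insert_erase hu]
  apply Finset.sum_congr rfl
  intro w hw
  rw [hQ, cf_base S u hu, if_pos hw]

/-- Swapping the closing letter under the trace. -/
theorem trace_lnr {n : ℕ} (x : ℕ → Matrix (Fin n) (Fin n) K) (A B : Matrix (Fin n) (Fin n) K)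
    (w : List ℕ) : (A * lnr x B w).trace = (-1) ^ w.length * (lnr x A w.reverse * B).trace := by
  induction w generalizing A with
  | nil => simp
  | cons i w ih =>
    rw [List.reverse_cons, lnr_append, lnr_cons, lnr_cons, lnr_nil, LieRing.of_associative_ring_bracket]
    have h1 : (A * (lnr x B w * x i - x i * lnr x B w)).trace =
        - (⁅A, x i⁆ * lnr x B w).trace := by
      rw [LieRing.of_associative_ring_bracket, mul_sub, sub_mul, Matrix.trace_sub,
        Matrix.trace_sub, ← mul_assoc, ← mul_assoc, Matrix.trace_mul_comm (A * lnr x B w) (x i),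
        ← mul_assoc]
      ring
    rw [h1, ih, List.length_cons, pow_succ]
    ring

end Pool.Agent.H394.LieB
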