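import Mathlib
import Pool.Agent.H394.LieCoef

set_option autoImplicit false

/-!
The cyclic coefficient function of a multilinear Lie identity of matrices.
-/

namespace Pool.Agent.H394.LieB

open Finset Pool.Agent.Helper884.LieId

attribute [local instance 100] LieRing.ofAssociativeRing

variable {K : Type} [Field K]

theorem shsum_sign (G : List ℕ → K) (u v : List ℕ) :
    shsum (fun w => (-1) ^ w.length * G w) u v = (-1) ^ (u.length + v.length) * shsum G u v := by
  rw [← shsum_mul]
  apply shsum_congr
  intro w hw
  rw [hw.length_eq, List.length_append]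

theorem shsum_zero (u v : List ℕ) : shsum (fun _ => (0 : K)) u v = 0 := by
  have := shsum_mul (0 : K) (fun _ => (0 : K)) u v
  simpa using this

theorem neg_one_pow_mul_self' (n : ℕ) : ((-1 : K) ^ n) * (-1) ^ n = 1 := by
  rw [← pow_add, Even.neg_one_pow ⟨n, rfl⟩]

/-- The coefficients of a multilinear Lie polynomial in terms of those of the words ending in a
given letter. -/
theorem cf_split_last (S : Finset ℕ) (g : FreeLieAlgebra K ℕ) (hg : g ∈ ML K S) (v : ℕ)
    (A B : List ℕ) (h : A ++ v :: B ∈ permsOf S) :
    cf g (A ++ v :: B) = (-1) ^ B.length *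
      shsum (fun w => cf g (w ++ [v])) A B.reverse := by
  rw [cf_split S g hg v A B h]
  have h1 : shsum (fun w => cf g (w ++ [v])) A B.reverse =
      shsum (fun w => (-1) ^ w.length * cf g (v :: w.reverse)) A B.reverse := by
    apply shsum_congr
    intro w hw
    have h2 : w ++ v :: [] ∈ permsOf S := by
      refine (perm_mem_permsOf ?_).mp h
      have e1 : (A ++ v :: B).Perm (v :: (A ++ B)) := List.perm_middle
      have e2 : (w ++ [v]).Perm (v :: w) := List.perm_append_singleton v w
      refine e1.trans (List.Perm.trans ?_ e2.symm)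
      apply List.Perm.cons
      exact (hw.trans (List.Perm.append_left _ (List.reverse_perm B))).symm
    rw [cf_split S g hg v w [] h2]
    simp
  rw [h1, shsum_sign, shsum_comm, List.length_reverse, ← mul_assoc, ← pow_add]
  congr 1
  rw [show B.length + (A.length + B.length) = A.length + (B.length + B.length) by ring, pow_add,
    Even.neg_one_pow (n := B.length + B.length) ⟨B.length, rfl⟩, mul_one]

/-- The cyclic coefficient function. -/
noncomputable def cyc (S : Finset ℕ) (y : ℕ) (f : FreeLieAlgebra K ℕ) (w : List ℕ) : K :=
  if w ∈ permsOf (insert y S) then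
    cf f ((w.dropWhile (· ≠ y)).tail ++ w.takeWhile (· ≠ y)) else 0

variable {S : Finset ℕ} {y : ℕ} {f : FreeLieAlgebra K ℕ}

theorem cyc_split {A B : List ℕ} (h : A ++ y :: B ∈ permsOf (insert y S)) :
    cyc S y f (A ++ y :: B) = cf f (B ++ A) := by
  have hb : y ∉ A := by
    rw [mem_permsOf, List.nodup_append] at h
    exact fun h' => h.1.2.2 y h' y List.mem_cons_self rfl
  unfold cyc
  rw [if_pos h]
  have h1 : (A ++ y :: B).takeWhile (· ≠ y) = A := by
    rw [List.takeWhile_append_of_pos]
    · simp
    · intro c hc
      simp only [ne_eq, decide_not, Bool.not_eq_eq_eq_not, Bool.not_true, decide_eq_false_iff_not]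
      rintro rfl
      exact hb hc
  have h2 : (A ++ y :: B).dropWhile (· ≠ y) = y :: B := by
    rw [List.dropWhile_append_of_pos]
    · simp
    · intro c hc
      simp only [ne_eq, decide_not, Bool.not_eq_eq_eq_not, Bool.not_true, decide_eq_false_iff_not]
      rintro rfl
      exact hb hc
  rw [h1, h2, List.tail_cons]

theorem cyc_zero {w : List ℕ} (h : w ∉ permsOf (insert y S)) : cyc S y f w = 0 := by
  unfold cyc
  rw [if_neg h]

theorem cyc_rot (A B : List ℕ) : cyc S y f (A ++ B) = cyc S y f (B ++ A) := by
  by_cases h : A ++ B ∈ permsOf (insert y S)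
  · have h' : B ++ A ∈ permsOf (insert y S) := (perm_mem_permsOf List.perm_append_comm).mp h
    have hy : y ∈ A ++ B := by
      rw [mem_permsOf] at h
      rw [← List.mem_toFinset, h.2]
      exact Finset.mem_insert_self _ _
    rcases List.mem_append.mp hy with hA | hB
    · obtain ⟨A₁, A₂, rfl⟩ := List.append_of_mem hA
      rw [List.append_assoc, List.cons_append] at h ⊢
      rw [cyc_split h]
      rw [← List.append_assoc] at h' ⊢
      rw [cyc_split h', List.append_assoc]
    · obtain ⟨B₁, B₂, rfl⟩ := List.append_of_mem hB
      rw [← List.append_assoc] at h ⊢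
      rw [cyc_split h]
      rw [List.append_assoc, List.cons_append] at h' ⊢
      rw [cyc_split h', List.append_assoc]
  · rw [cyc_zero h, cyc_zero]
    intro h'
    exact h ((perm_mem_permsOf List.perm_append_comm).mp h')

/-- For each closing letter `u` the function `w ↦ cyc (u :: w)` is the coefficient function of a
Lie identity. -/
theorem exists_closing (hy : y ∉ S) (hf : f ∈ ML K S) {n : ℕ}
    (hv : ∀ x : ℕ → Matrix (Fin n) (Fin n) K, FreeLieAlgebra.lift K x f = 0)
    (u : ℕ) (hu : u ∈ insert y S) :
    ∃ g ∈ ML K ((insert y S).erase u),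
      (∀ w ∈ permsOf ((insert y S).erase u), cyc S y f (u :: w) = cf g w) ∧
      ∀ x : ℕ → Matrix (Fin n) (Fin n) K, FreeLieAlgebra.lift K x g = 0 := by
  by_cases huy : u = y
  · subst huy
    rw [Finset.erase_insert hy]
    refine ⟨f, hf, ?_, hv⟩
    intro w hw
    have h1 : [] ++ u :: w ∈ permsOf (insert u S) := by
      rw [List.nil_append, cons_mem_permsOf, Finset.erase_insert hy]
      exact ⟨Finset.mem_insert_self _ _, hw⟩
    have h2 := cyc_split (f := f) h1
    rw [List.nil_append, List.append_nil] at h2
    exact h2
  · have huS : u ∈ S := Finset.mem_of_mem_insert_of_ne hu huy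
    have hy' : y ∈ (insert y S).erase u :=
      Finset.mem_erase.mpr ⟨Ne.symm huy, Finset.mem_insert_self _ _⟩
    have hE : ((insert y S).erase u).erase y = S.erase u := by
      rw [Finset.erase_right_comm, Finset.erase_insert hy]
    set Q : List ℕ → K := fun w => (-1) ^ w.length * cf f (u :: w) with hQ
    refine ⟨∑ w ∈ permsOf (((insert y S).erase u).erase y),
      Q w • lnr (FreeLieAlgebra.of K) (FreeLieAlgebra.of K y) w, base_mem_ML _ y hy' Q, ?_, ?_⟩
    · intro w hw
      rw [cf_base _ y hy', if_pos hw]
      have hyw : y ∈ w := by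
        rw [← List.mem_toFinset, (mem_permsOf.mp hw).2]
        exact hy'
      obtain ⟨b, a, rfl⟩ := List.append_of_mem hyw
      have hb : y ∉ b := by
        have h := hw
        rw [mem_permsOf, List.nodup_append] at h
        exact fun h' => h.1.2.2 y h' y List.mem_cons_self rfl
      have hw' : (u :: b) ++ y :: a ∈ permsOf (insert y S) := by
        rw [List.cons_append, cons_mem_permsOf]
        exact ⟨hu, hw⟩
      have h1 := cyc_split (f := f) hw'
      rw [List.cons_append] at h1
      rw [h1, ex_split Q y b a hb]
      have hab : a ++ u :: b ∈ permsOf S := by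
        have h2 : (u :: b ++ y :: a).Perm (y :: (a ++ u :: b)) := by
          refine List.perm_middle.trans (List.Perm.cons y ?_)
          exact List.perm_append_comm
        have h3 := (cons_mem_permsOf.mp ((perm_mem_permsOf h2).mp hw')).2
        rwa [Finset.erase_insert hy] at h3
      have h4 := shsum_reverse (fun w => cf f (u :: w)) b.reverse a
      rw [List.reverse_reverse] at h4
      rw [cf_split S f hf u a b hab, hQ, shsum_sign, h4, shsum_comm, List.length_reverse,
        ← mul_assoc, ← pow_add]
      congr 1
      rw [show b.length + (a.length + b.length) = a.length + (b.length + b.length) by ring, pow_add,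
        Even.neg_one_pow (n := b.length + b.length) ⟨b.length, rfl⟩, mul_one]
    · intro x
      rw [lift_sum, hE]
      have key : ∀ Z : Matrix (Fin n) (Fin n) K,
          (Z * ∑ w ∈ permsOf (S.erase u), Q w • lnr x (x y) w).trace = 0 := by
        intro Z
        have h0 := hv (Function.update x u Z)
        rw [eq_base S u huS f hf, lift_sum] at h0
        have h1 : ∑ w ∈ permsOf (S.erase u), cf f (u :: w.reverse) • lnr x Z w = 0 := by
          rw [← h0]
          apply Finset.sum_congr rfl
          intro w hw
          rw [Function.update_self]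
          congr 1
          apply lnr_congr
          intro i hi
          rw [Function.update_of_ne]
          rintro rfl
          rw [← List.mem_toFinset, (mem_permsOf.mp hw).2] at hi
          exact Finset.notMem_erase _ _ hi
        have h2 : (Z * ∑ w ∈ permsOf (S.erase u), Q w • lnr x (x y) w).trace =
            ((∑ w ∈ permsOf (S.erase u), cf f (u :: w.reverse) • lnr x Z w) * x y).trace := by
          rw [Finset.mul_sum, Matrix.trace_sum, Finset.sum_mul, Matrix.trace_sum,
            ← sum_permsOf_reverse (S.erase u)
              (fun w => (cf f (u :: w.reverse) • lnr x Z w * x y).trace)]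
          apply Finset.sum_congr rfl
          intro w _
          rw [mul_smul_comm, smul_mul_assoc, Matrix.trace_smul, Matrix.trace_smul, trace_lnr,
            List.reverse_reverse, hQ]
          simp only [smul_eq_mul]
          rw [mul_comm ((-1 : K) ^ w.length) (cf f (u :: w)), mul_assoc, ← mul_assoc ((-1 : K) ^ w.length),
            neg_one_pow_mul_self', one_mul]
        rw [h2, h1, zero_mul, Matrix.trace_zero]
      ext i j
      have h3 := key (Matrix.single j i 1)
      rw [Matrix.trace_single_mul, one_smul] at h3
      exact h3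

variable (S y f) in
/-- The rotation, Kleiss-Kuijf and matrix relations of the cyclic coefficient function. -/
theorem cyc_KK (hy : y ∉ S) (hf : f ∈ ML K S) (u v : ℕ) (A B : List ℕ) :
    cyc S y f (u :: (A ++ v :: B)) =
      (-1) ^ B.length * shsum (fun w => cyc S y f (u :: (w ++ [v]))) A B.reverse := by
  have hperm : ∀ w : List ℕ, w.Perm (A ++ B.reverse) →
      (u :: (A ++ v :: B)).Perm (u :: (w ++ [v])) := by
    intro w hw
    apply List.Perm.cons
    refine List.perm_middle.trans (List.Perm.trans ?_ (List.perm_append_singleton v w).symm)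
    apply List.Perm.cons
    exact (hw.trans (List.Perm.append_left _ (List.reverse_perm B))).symm
  by_cases h : u :: (A ++ v :: B) ∈ permsOf (insert y S)
  · obtain ⟨g, hg, hc, -⟩ := exists_closing hy hf (n := 0)
      (fun x => Subsingleton.elim _ _) u (cons_mem_permsOf.mp h).1
    rw [hc _ (cons_mem_permsOf.mp h).2, cf_split_last _ g hg v A B (cons_mem_permsOf.mp h).2]
    congr 1
    apply shsum_congr
    intro w hw
    have h1 := (perm_mem_permsOf (hperm w hw)).mp h
    exact (hc _ (cons_mem_permsOf.mp h1).2).symm
  · rw [cyc_zero h]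
    have h2 : shsum (fun w => cyc S y f (u :: (w ++ [v]))) A B.reverse =
        shsum (fun _ => (0 : K)) A B.reverse := by
      apply shsum_congr
      intro w hw
      apply cyc_zero
      intro h3
      exact h ((perm_mem_permsOf (hperm w hw)).mpr h3)
    rw [h2, shsum_zero, mul_zero]

theorem cyc_IsId (hy : y ∉ S) (hf : f ∈ ML K S) {n : ℕ}
    (hv : ∀ x : ℕ → Matrix (Fin n) (Fin n) K, FreeLieAlgebra.lift K x f = 0)
    (u : ℕ) (hu : u ∈ insert y S) (h2 : ((insert y S).erase u).Nonempty) :
    IsId K n ((insert y S).erase u) (fun w => cyc S y f (u :: w)) := by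
  obtain ⟨g, hg, hc, hg0⟩ := exists_closing hy hf hv u hu
  intro x
  have h := hg0 x
  rw [lift_eq_sum _ h2 g hg x] at h
  rw [← h]
  apply Finset.sum_congr rfl
  intro w hw
  dsimp only
  rw [hc w hw]

theorem eq_zero_of_cyc (hy : y ∉ S) (hS : S.Nonempty) (hf : f ∈ ML K S)
    (h : ∀ w, cyc S y f w = 0) : f = 0 := by
  obtain ⟨u, hu⟩ := hS
  rw [eq_base S u hu f hf]
  apply Finset.sum_eq_zero
  intro w hw
  have h1 : u :: w.reverse ∈ permsOf S := by
    rw [cons_mem_permsOf, reverse_mem_permsOf]
    exact ⟨hu, hw⟩
  have h2 : [] ++ y :: (u :: w.reverse) ∈ permsOf (insert y S) := by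
    rw [List.nil_append, cons_mem_permsOf, Finset.erase_insert hy]
    exact ⟨Finset.mem_insert_self _ _, h1⟩
  have h3 := cyc_split (f := f) h2
  rw [h _, List.append_nil] at h3
  rw [← h3, zero_smul]

end Pool.Agent.H394.LieB
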