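import Mathlib
import Pool.Agent.H394.LieCyc

set_option autoImplicit false

/-!
Assembly: no Lie identity of degree at most `2n+1` for `sl_n`, `n ≥ 3`.
-/

namespace Pool.Agent.H394.LieB

open Finset Pool.Agent.Helper884.LieId

attribute [local instance 100] LieRing.ofAssociativeRing

variable {K : Type} [Field K]

theorem sum_permsOf_pair {M : Type*} [AddCommMonoid M] (a b : ℕ) (hab : a ≠ b)
    (g : List ℕ → M) : ∑ t ∈ permsOf ({a, b} : Finset ℕ), g t = g [a, b] + g [b, a] := by
  rw [sum_permsOf _ ⟨a, by simp⟩, Finset.sum_insert (by simpa using hab), Finset.sum_singleton]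
  have e1 : ({a, b} : Finset ℕ).erase a = {b} := by
    rw [Finset.erase_insert]
    simpa using hab
  have e2 : ({a, b} : Finset ℕ).erase b = {a} := by
    rw [Finset.pair_comm, Finset.erase_insert]
    simpa using hab.symm
  have e3 : ∀ c : ℕ, ({c} : Finset ℕ).erase c = ∅ := by
    intro c
    simp
  rw [e1, e2, sum_permsOf _ ⟨b, by simp⟩, sum_permsOf _ ⟨a, by simp⟩, Finset.sum_singleton,
    Finset.sum_singleton, e3, e3, permsOf_empty, Finset.sum_singleton, Finset.sum_singleton]

theorem alt_hh (hCON : S_CON) (hBF2 : S_BF2) {S : Finset ℕ} {y : ℕ} {f : FreeLieAlgebra K ℕ}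
    (hy : y ∉ S) (hf : f ∈ ML K S) {k : ℕ} (hcard : S.card = 2 * k + 3)
    (hv : ∀ x : ℕ → Matrix (Fin (k + 1)) (Fin (k + 1)) K, FreeLieAlgebra.lift K x f = 0)
    (a b u v : ℕ) : Altern (hh (cyc S y f) a b u v) := by
  intro l₁ l₂ x z
  have hX : (insert y S).card = 2 * k + 4 := by
    rw [Finset.card_insert_of_notMem hy, hcard]
  by_cases h : u :: ((l₁ ++ x :: z :: l₂) ++ [v, a, b]) ∈ permsOf (insert y S)
  · obtain ⟨hu, h1⟩ := cons_mem_permsOf.mp h
    have hcu : ((insert y S).erase u).card = 2 * k + 3 := by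
      rw [Finset.card_erase_of_mem hu, hX]
      rfl
    have hI := cyc_IsId hy hf hv u hu (Finset.card_pos.mp (by omega))
    have h2 : ((l₁ ++ x :: z :: l₂) ++ [v, a, b]).Perm (v :: a :: b :: (l₁ ++ x :: z :: l₂)) :=
      List.perm_append_comm
    have h3 := (perm_mem_permsOf h2).mp h1
    obtain ⟨hv', h4⟩ := cons_mem_permsOf.mp h3
    obtain ⟨ha', h5⟩ := cons_mem_permsOf.mp h4
    obtain ⟨hb', h6⟩ := cons_mem_permsOf.mp h5
    have hab : a ≠ b := by
      rintro rfl
      exact Finset.notMem_erase _ _ hb'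
    have hva : v ≠ a := by
      rintro rfl
      exact Finset.notMem_erase _ _ ha'
    have hvb : v ≠ b := by
      rintro rfl
      exact Finset.notMem_erase _ _ (Finset.mem_of_mem_erase hb')
    have hT : ({a, b} : Finset ℕ) ⊆ (insert y S).erase u := by
      intro c hc
      rw [Finset.mem_insert, Finset.mem_singleton] at hc
      rcases hc with rfl | rfl
      · exact Finset.mem_of_mem_erase ha'
      · exact Finset.mem_of_mem_erase (Finset.mem_of_mem_erase hb')
    have hvT : v ∉ ({a, b} : Finset ℕ) := by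
      rw [Finset.mem_insert, Finset.mem_singleton]
      rintro (h | h)
      · exact hva h
      · exact hvb h
    have hC := hCON K k _ {a, b} v _ hv' hT hvT hI
    have hE : (((insert y S).erase u).erase v \ {a, b}) =
        ((((insert y S).erase u).erase v).erase a).erase b := by
      ext c
      simp only [Finset.mem_sdiff, Finset.mem_erase, Finset.mem_insert, Finset.mem_singleton]
      tauto
    rw [hE] at hC
    have hcard' : (((((insert y S).erase u).erase v).erase a).erase b).card = 2 * k := by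
      rw [Finset.card_erase_of_mem hb', Finset.card_erase_of_mem ha',
        Finset.card_erase_of_mem hv', hcu]
      omega
    have hB := hBF2 K k _ _ hcard' hC l₁ l₂ x z h6
    simp only [sum_permsOf_pair a b hab] at hB
    exact hB
  · have hz : ∀ w : List ℕ, w.Perm (u :: ((l₁ ++ x :: z :: l₂) ++ [v, a, b])) →
        cyc S y f w = 0 := by
      intro w hw
      apply cyc_zero
      intro h'
      exact h ((perm_mem_permsOf hw).mp h')
    unfold hh
    rw [hz, hz, hz, hz]
    · simp
    · apply List.Perm.cons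
      exact List.Perm.append (List.Perm.append_left _ (List.Perm.swap _ _ _))
        (List.Perm.cons v (List.Perm.swap _ _ _))
    · apply List.Perm.cons
      exact List.Perm.append_right _ (List.Perm.append_left _ (List.Perm.swap _ _ _))
    · apply List.Perm.cons
      exact List.Perm.append_left _ (List.Perm.cons v (List.Perm.swap _ _ _))
    · exact List.Perm.refl _

/-- The multilinear statement in degree exactly `2n+1`, for `gl_n`, `n = m + 3`. -/
theorem multilinear_top [CharZero K] (hCON : S_CON) (hBF2 : S_BF2) (hCORE : S_CORE) (m : ℕ)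
    (S : Finset ℕ) (hcard : S.card = 2 * m + 7) (f : FreeLieAlgebra K ℕ) (hf : f ∈ ML K S)
    (hv : ∀ x : ℕ → Matrix (Fin (m + 3)) (Fin (m + 3)) K, FreeLieAlgebra.lift K x f = 0) :
    f = 0 := by
  obtain ⟨y, hy⟩ := Infinite.exists_notMem_finset S
  have hS : S.Nonempty := Finset.card_pos.mp (by omega)
  apply eq_zero_of_cyc hy hS hf
  have hlen : ∀ w : List ℕ, w.length ≠ 2 * m + 8 → cyc S y f w = 0 := by
    intro w hw
    apply cyc_zero
    intro h
    apply hw
    rw [length_of_mem_permsOf h, Finset.card_insert_of_notMem hy, hcard]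
  have hnd : ∀ w : List ℕ, ¬ w.Nodup → cyc S y f w = 0 := by
    intro w hw
    apply cyc_zero
    intro h
    exact hw (mem_permsOf.mp h).1
  exact hCORE K m (cyc S y f) hlen hnd cyc_rot (cyc_KK S y f hy hf)
    (fun a b u v => alt_hh hCON hBF2 hy hf (k := m + 2) (by omega) hv a b u v)

/-- From degree `e + 1` to degree `e`. -/
theorem lower_degree {L : Type} [LieRing L] [LieAlgebra K L] (e : ℕ) (he : 1 ≤ e)
    (H : ∀ S : Finset ℕ, S.card = e + 1 → ∀ f ∈ ML K S,
      (∀ a : ℕ → L, FreeLieAlgebra.lift K a f = 0) → f = 0)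
    (S : Finset ℕ) (hcard : S.card = e) (f : FreeLieAlgebra K ℕ) (hf : f ∈ ML K S)
    (hv : ∀ a : ℕ → L, FreeLieAlgebra.lift K a f = 0) : f = 0 := by
  obtain ⟨z, hz⟩ := Infinite.exists_notMem_finset S
  obtain ⟨u, hu⟩ : S.Nonempty := Finset.card_pos.mp (by omega)
  have huz : u ≠ z := by
    rintro rfl
    exact hz hu
  set Q : List ℕ → K := fun w => match w with
    | [] => 0
    | i :: w => if i = z then cf f (u :: w.reverse) else 0 with hQ
  have huX : u ∈ insert z S := Finset.mem_insert_of_mem hu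
  have hE : ((insert z S).erase u).erase z = S.erase u := by
    rw [Finset.erase_right_comm, Finset.erase_insert hz]
  have hzE : z ∈ (insert z S).erase u :=
    Finset.mem_erase.mpr ⟨huz.symm, Finset.mem_insert_self _ _⟩
  have h1 : ⁅f, FreeLieAlgebra.of K z⁆ = ∑ w ∈ permsOf ((insert z S).erase u),
      Q w • lnr (FreeLieAlgebra.of K) (FreeLieAlgebra.of K u) w := by
    rw [sum_permsOf _ ⟨z, hzE⟩, Finset.sum_eq_single_of_mem z hzE]
    · rw [hE]
      conv_lhs => rw [eq_base S u hu f hf]
      rw [sum_lie]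
      apply Finset.sum_congr rfl
      intro w _
      rw [hQ]
      simp only [if_true, lnr_cons, smul_lie]
    · intro i _ hi
      apply Finset.sum_eq_zero
      intro w _
      rw [hQ]
      simp only [if_neg hi, zero_smul]
  have h2 : ⁅f, FreeLieAlgebra.of K z⁆ = 0 := by
    apply H (insert z S) (by rw [Finset.card_insert_of_notMem hz, hcard])
    · rw [h1]
      exact base_mem_ML _ u huX Q
    · intro a
      rw [LieHom.map_lie, hv a, zero_lie]
  rw [eq_base S u hu f hf]
  apply Finset.sum_eq_zero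
  intro w hw
  have h3 : z :: w ∈ permsOf ((insert z S).erase u) := by
    rw [cons_mem_permsOf, hE]
    exact ⟨hzE, hw⟩
  have h4 := cf_base_cons (insert z S) u huX Q (z :: w) h3
  rw [← h1, h2] at h4
  have h5 : Q (z :: w) = cf f (u :: w.reverse) := by
    rw [hQ]
    simp
  rw [h5] at h4
  have h6 : cf (0 : FreeLieAlgebra K ℕ) (u :: (z :: w).reverse) = 0 := by
    unfold cf
    rw [map_zero]
    rfl
  rw [← h4, h6, zero_smul]

/-- A multilinear Lie identity of `sl_n` of degree at least two holds on `gl_n`. -/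
theorem gl_of_sl [CharZero K] {n : ℕ} (hn : 1 ≤ n) (S : Finset ℕ) (hcard : 2 ≤ S.card)
    (f : FreeLieAlgebra K ℕ) (hf : f ∈ ML K S)
    (hv : ∀ a : ℕ → LieAlgebra.SpecialLinear.sl (Fin n) K, FreeLieAlgebra.lift K a f = 0)
    (x : ℕ → Matrix (Fin n) (Fin n) K) : FreeLieAlgebra.lift K x f = 0 := by
  obtain ⟨u, hu⟩ : S.Nonempty := Finset.card_pos.mp (by omega)
  have hn' : (n : K) ≠ 0 := Nat.cast_ne_zero.mpr (by omega)
  have htr : ∀ i, x i - ((x i).trace / n) • (1 : Matrix (Fin n) (Fin n) K) ∈
      LieAlgebra.SpecialLinear.sl (Fin n) K := by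
    intro i
    change Matrix.traceLinearMap (Fin n) K K
      (x i - ((x i).trace / n) • (1 : Matrix (Fin n) (Fin n) K)) = 0
    rw [Matrix.traceLinearMap_apply, Matrix.trace_sub, Matrix.trace_smul, Matrix.trace_one,
      Fintype.card_fin, smul_eq_mul, div_mul_cancel₀ _ hn', sub_self]
  set a : ℕ → LieAlgebra.SpecialLinear.sl (Fin n) K := fun i => ⟨_, htr i⟩ with ha
  have hx : ∀ (A : Matrix (Fin n) (Fin n) K) (i : ℕ), ⁅A, x i⁆ = ⁅A, (a i : Matrix (Fin n) (Fin n) K)⁆ := by
    intro A i
    rw [ha]
    simp only [LieRing.of_associative_ring_bracket]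
    rw [mul_sub, sub_mul, mul_smul_comm, smul_mul_assoc, mul_one, one_mul]
    abel
  have hy : ∀ (A : Matrix (Fin n) (Fin n) K) (i : ℕ), ⁅x i, A⁆ = ⁅(a i : Matrix (Fin n) (Fin n) K), A⁆ := by
    intro A i
    rw [← lie_skew, hx, lie_skew]
  have hl : ∀ (w : List ℕ), w ≠ [] → lnr x (x u) w =
      lnr (fun i => (a i : Matrix (Fin n) (Fin n) K)) (a u : Matrix (Fin n) (Fin n) K) w := by
    intro w hw
    induction w with
    | nil => exact absurd rfl hw
    | cons i w ih =>
      by_cases h : w = []
      · subst h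
        simp only [lnr_cons, lnr_nil]
        rw [hx, hy]
      · rw [lnr_cons, lnr_cons, ih h, hx]
  have h0 := hv a
  rw [eq_base S u hu f hf, lift_sum] at h0 ⊢
  have h1 := congrArg (LieAlgebra.SpecialLinear.sl (Fin n) K).incl h0
  rw [map_sum, map_zero] at h1
  rw [← h1]
  apply Finset.sum_congr rfl
  intro w hw
  rw [map_smul, map_lnr, hl w]
  · rfl
  · rintro rfl
    have := length_of_mem_permsOf hw
    rw [Finset.card_erase_of_mem hu] at this
    simp only [List.length_nil] at this
    omega

end Pool.Agent.H394.LieB
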