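import Mathlib
import Pool.Agent.H394.LieMain
import Pool.Agent.H707.LieCon
import Pool.Agent.H551.LieCore

set_option autoImplicit false

/-!
Assembly: no Lie identity of degree at most `2n+1` for `sl_n`, `n ≥ 3`.
-/

namespace Pool.Agent.H394.LieB

open Finset Pool.Agent.Helper884.LieId

attribute [local instance 100] LieRing.ofAssociativeRing

variable {K : Type} [Field K] [CharZero K]

/-- No multilinear Lie identity of `sl_n`, `n = m + 3`, of degree `1 ≤ e ≤ 2n+1`. -/
theorem multilinear_low (m : ℕ) (k : ℕ) (hk : k ≤ 2 * m + 6) :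
    ∀ S : Finset ℕ, S.card = 2 * m + 7 - k → ∀ f ∈ ML K S,
      (∀ a : ℕ → LieAlgebra.SpecialLinear.sl (Fin (m + 3)) K, FreeLieAlgebra.lift K a f = 0) →
      f = 0 := by
  induction k with
  | zero =>
    intro S hS f hf hv
    exact multilinear_top H707.LieB.t_CON H707.LieB.t_BF2 H551.LieB.t_CORE m S (by omega) f hf
      (gl_of_sl (by omega) S (by omega) f hf hv)
  | succ k ih =>
    intro S hS f hf hv
    refine lower_degree (2 * m + 7 - (k + 1)) (by omega) ?_ S hS f hf hv
    have h := ih (by omega)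
    rw [show 2 * m + 7 - k = 2 * m + 7 - (k + 1) + 1 by omega] at h
    exact h

theorem no_identity (hPOL : S_POL) (m : ℕ) (f : FreeLieAlgebra K ℕ)
    (hf : f ∈ DegLE K (2 * m + 7))
    (hv : ∀ a : ℕ → LieAlgebra.SpecialLinear.sl (Fin (m + 3)) K, FreeLieAlgebra.lift K a f = 0) :
    f = 0 := by
  refine hPOL K _ (2 * m + 7) ?_ f hf hv
  intro e he1 he2 g hg hg0
  exact multilinear_low m (2 * m + 7 - e) (by omega) (Finset.range e)
    (by rw [Finset.card_range]; omega) g hg hg0

end Pool.Agent.H394.LieB
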