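import Pool.Agent.H812.SO.Stm

/-!
# Project SO (helper812): seven steps of `A` against twelve steps of `B`
-/

set_option autoImplicit false

namespace Pool.Agent.H394.SoWALK

open Pool.Agent.H812.SO Pool.Agent.N229.SC

theorem iterA {n : ℕ} {A : Set ℝ}
    (hM : ∀ s t : ℝ, 6 / 5 * (n : ℝ) ≤ s → s ≤ t → t ≤ 13 / 10 * n →
      hh n t ≤ hh n s ∧ hh n s ≤ 6)
    (hA : ∀ a ∈ A, 6 / 5 * (n : ℝ) ≤ a → a ≤ 5 / 4 * n →
      ∃ a' ∈ A, a < a' ∧ hh n a' ≤ a' - a ∧ a' - a ≤ hh n a)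
    (hn : (6 : ℝ) ≤ 1 / 20 * n)
    (α : ℝ) (hα : α ∈ A) (h1 : 6 / 5 * (n : ℝ) ≤ α) (k : ℕ) (h2 : α + 6 * k ≤ 5 / 4 * n) :
    ∃ α' ∈ A, α ≤ α' ∧ α' ≤ α + 6 * k ∧ k * hh n α' ≤ α' - α ∧ α' - α ≤ k * hh n α := by
  induction k with
  | zero => exact ⟨α, hα, le_rfl, by simp, by simp, by simp⟩
  | succ k ih =>
    have h2' : α + 6 * k + 6 ≤ 5 / 4 * n := by
      push_cast at h2
      linarith
    have hk : (0 : ℝ) ≤ k := Nat.cast_nonneg k
    obtain ⟨β, hβ, h3, h4, h5, h6⟩ := ih (by linarith)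
    obtain ⟨α', hα', h7, h8, h9⟩ := hA β hβ (by linarith) (by linarith)
    have h10 := hM β β (by linarith) le_rfl (by linarith)
    have h11 := hM β α' (by linarith) h7.le (by linarith [h10.2])
    have h12 := hM α β h1 h3 (by linarith)
    refine ⟨α', hα', by linarith, ?_, ?_, ?_⟩
    · push_cast
      linarith [h10.2]
    · push_cast
      have h13 := mul_le_mul_of_nonneg_left h11.1 hk
      linarith
    · push_cast
      linarith [h12.1]

theorem iterB {n : ℕ} {B : Set ℝ} (hn : (0 : ℝ) < n)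
    (hB : ∀ b ∈ B, (n : ℝ) ≤ b → ∃ b' ∈ B, Real.pi ≤ b' - b ∧ b' - b ≤ Real.pi + 2 / b ^ 2)
    (β : ℝ) (hβ : β ∈ B) (h1 : (n : ℝ) ≤ β) (k : ℕ) :
    ∃ β' ∈ B, (n : ℝ) ≤ β' ∧ k * Real.pi ≤ β' - β ∧
      β' - β ≤ k * (Real.pi + 2 / (n : ℝ) ^ 2) := by
  induction k with
  | zero => exact ⟨β, hβ, h1, by simp, by simp⟩
  | succ k ih =>
    obtain ⟨γ, hγ, h2, h3, h4⟩ := ih
    obtain ⟨β', hβ', h5, h6⟩ := hB γ hγ h2
    have h7 : 2 / γ ^ 2 ≤ 2 / (n : ℝ) ^ 2 := by
      apply div_le_div_of_nonneg_left (by norm_num) (by positivity)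
      exact pow_le_pow_left₀ hn.le h2 2
    have hpi := Real.pi_pos
    refine ⟨β', hβ', by linarith, ?_, ?_⟩
    · push_cast
      linarith
    · push_cast
      linarith

theorem proof_WALK (hH : S_H) : S_WALK := by
  obtain ⟨⟨n1, hH⟩, -⟩ := hH
  intro ε hε
  refine ⟨max n1 ⌈(1000 + 780 / ε) ^ 2⌉₊, fun n hn A B hA hA0 hB hB0 => ?_⟩
  obtain ⟨⟨ht1, ht2⟩, hy, hM⟩ := hH n (le_trans (le_max_left _ _) hn)
  have hn2 : (1000 + 780 / ε) ^ 2 ≤ (n : ℝ) :=
    (Nat.le_ceil _).trans (by exact_mod_cast le_trans (le_max_right _ _) hn)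
  set s : ℝ := Real.sqrt n with hs
  have he : 0 < 780 / ε := by positivity
  have hs1 : 1000 + 780 / ε ≤ s := Real.le_sqrt_of_sq_le hn2
  have hss : s ^ 2 = n := Real.sq_sqrt (Nat.cast_nonneg n)
  have hs2 : 1000 ≤ s := by linarith
  have hs0 : 0 < s := by linarith
  have hs3 : 780 / s ≤ ε := by
    rw [div_le_iff₀ hs0]
    have h : 780 / ε ≤ s := by linarith
    rw [div_le_iff₀ hε] at h
    linarith
  have hns : 1000 * s ≤ (n : ℝ) := by
    rw [← hss]
    nlinarith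
  have hn0 : (0 : ℝ) < n := by linarith
  have hsn : ∀ c : ℝ, c / s = c * s / n := by
    intro c
    rw [← hss]
    field_simp
  obtain ⟨N, hN1, hN2⟩ : ∃ N : ℕ, s / 20 ≤ N ∧ (N : ℝ) ≤ s / 20 + 1 :=
    ⟨⌈s / 20⌉₊, Nat.le_ceil _, (Nat.ceil_lt_add_one (by positivity)).le⟩
  have key : ∀ i : ℕ, i ≤ N →
      (∃ a ∈ A, ∃ ρ ∈ B, tt n - 6 * s < a ∧ a ≤ tt n - 3 * s ∧ 0 < ρ - a ∧ ρ - a ≤ ε ∧
        ρ - a ≤ 7) ∨
      ∃ α ∈ A, ∃ β ∈ B, tt n - 6 * s < α ∧ α ≤ tt n - 6 * s + 12 + 42 * i ∧ 0 < β - α ∧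
        β - α ≤ 7 - i * (144 / s) := by
    intro i
    induction i with
    | zero =>
      intro _
      right
      obtain ⟨α, hα, h1, h2⟩ := hA0 (tt n - 6 * s) (by linarith) (by linarith)
      obtain ⟨β, hβ, h3, h4⟩ := hB0 α (by linarith)
      exact ⟨α, hα, β, hβ, h1, by simpa using h2, by linarith, by simp; linarith⟩
    | succ i ih =>
      intro hi
      rcases ih (by omega) with h | ⟨α, hα, β, hβ, h1, h2, h3, h4⟩
      · exact Or.inl h
      have hiN : ((i : ℝ) + 1) ≤ N := by exact_mod_cast hi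
      have hi0 : (0 : ℝ) ≤ i := Nat.cast_nonneg i
      obtain ⟨α', hα', h5, h6, h7, h8⟩ := iterA hM hA (by linarith) α hα (by linarith) 7
        (by push_cast; linarith)
      push_cast at h6 h7 h8
      obtain ⟨β', hβ', h9, h10, h11⟩ := iterB hn0 hB β hβ (by linarith) 12
      push_cast at h10 h11
      have hy1 := (hy (tt n - α') (by linarith) (by linarith)).1
      have hy2 := (hy (tt n - α) (by linarith) (by linarith)).2
      rw [sub_sub_cancel] at hy1 hy2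
      have e1 : 150 / s ≤ 50 * (tt n - α') / n := by
        rw [hsn]
        apply div_le_div_of_nonneg_right _ hn0.le
        linarith
      have e2 : 130 * (tt n - α) / n ≤ 780 / s := by
        rw [hsn]
        apply div_le_div_of_nonneg_right _ hn0.le
        linarith
      have e3 : 12 * (2 / (n : ℝ) ^ 2) ≤ 6 / s := by
        rw [hsn, mul_div_assoc', div_le_div_iff₀ (by positivity) hn0]
        have f1 : (24 : ℝ) ≤ 6 * s * n := by nlinarith
        have f2 : 24 * (n : ℝ) ≤ 6 * s * n * n := mul_le_mul_of_nonneg_right f1 hn0.le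
        nlinarith
      have e4 : 150 / s = 144 / s + 6 / s := by ring
      have hG : β' - α' ≤ (β - α) - 144 / s := by linarith
      have hG2 : (β - α) - 780 / s ≤ β' - α' := by linarith
      by_cases hpos : 0 < β' - α'
      · right
        refine ⟨α', hα', β', hβ', by linarith, ?_, hpos, ?_⟩
        · push_cast
          linarith
        · push_cast
          linarith
      · left
        have h12 : (0 : ℝ) ≤ i * (144 / s) := by positivity
        exact ⟨α, hα, β, hβ, h1, by linarith, h3, by linarith, by linarith⟩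
  have fin : ∃ a ∈ A, ∃ ρ ∈ B, tt n - 6 * s < a ∧ a ≤ tt n - 3 * s ∧ 0 < ρ - a ∧ ρ - a ≤ ε ∧
      ρ - a ≤ 7 := by
    rcases key N le_rfl with h | ⟨α, hα, β, hβ, h1, h2, h3, h4⟩
    · exact h
    · exfalso
      have h5 : s / 20 * (144 / s) ≤ N * (144 / s) :=
        mul_le_mul_of_nonneg_right hN1 (by positivity)
      have h6 : s / 20 * (144 / s) = 144 / 20 := by field_simp
      linarith
  obtain ⟨a, ha, ρ, hρ, h1, h2, h3, h4, h5⟩ := fin
  exact ⟨a, ha, ρ, hρ, by linarith, h3, h4, by linarith, by linarith⟩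

end Pool.Agent.H394.SoWALK
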